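import Mathlib
import Pool.Agent.Lib.MP_4ca46c_ag.T2.EvenA
import Pool.Agent.Lib.MP_4ca46c_ag.Two.Trp

/-!
# The alternating sum of the even Künneth components

`kap X` is the operator which is `(-1)^j` on `H^(2j)(X)` and `0` in odd degrees. In odd dimension it is
algebraic if the projector `four X` onto the sum of the `H^i(X)`, `i` divisible by `4`, is algebraic.
-/

set_option autoImplicit false

open CategoryTheory MonoidalCategory CartesianMonoidalCategory TensorProduct

namespace Pool.Agent.Lib.MP_4ca46c_ag.M4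

open Pool.Agent.Lib.MP_4ca46c_ag.Geo Pool.Agent.Lib.MP_4ca46c_ag.Geo.WeilCohomology
open Pool.Agent.Lib.MP_4ca46c_ag.Two

variable {K : Type} [Field K] [CharZero K] {𝒱 : Type 1} [Category.{0} 𝒱]
  [CartesianMonoidalCategory 𝒱] (W : WeilCohomology K 𝒱)

/-- The operator which is `c i` on `H^i(X)`. -/
noncomputable def scal (X : 𝒱) (c : ℕ → K) : W.H X →ₗ[K] W.H X :=
  ∑ i ∈ Finset.range (2 * W.dim X + 1), c i • W.pi X i

theorem scal_gr {X : 𝒱} (c : ℕ → K) {i : ℕ} {x : W.H X} (hx : x ∈ W.gr X i) :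
    scal W X c x = c i • x := by
  rw [scal, LinearMap.sum_apply]
  by_cases hi : 2 * W.dim X < i
  · rw [W.gr_top hx hi]
    simp
  · rw [Finset.sum_eq_single_of_mem i (Finset.mem_range.2 (by omega))
      fun j _ hj => by rw [LinearMap.smul_apply, W.pi_ne hx (Ne.symm hj), smul_zero],
      LinearMap.smul_apply, W.pi_same hx]

/-- `1` in the degrees divisible by `4` -/
def fc (K : Type) [Field K] (i : ℕ) : K := if 4 ∣ i then 1 else 0

/-- `1` in the degrees `2` modulo `4` -/
def gc (K : Type) [Field K] (i : ℕ) : K := if 4 ∣ i + 2 then 1 else 0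

/-- `(-1)^j` in the degree `2j`, and `0` in odd degrees -/
def kc (K : Type) [Field K] (i : ℕ) : K := fc K i - gc K i

omit [CharZero K] in
theorem kc_add_two {m : ℕ} (hm : Even m) : kc K (2 + m) = - kc K m := by
  obtain ⟨r, rfl⟩ := hm
  rcases Nat.even_or_odd r with hr | hr
  · obtain ⟨s, rfl⟩ := hr
    have h1 : 4 ∣ s + s + (s + s) := ⟨s, by ring⟩
    have h2 : ¬ 4 ∣ s + s + (s + s) + 2 := by omega
    have h3 : ¬ 4 ∣ 2 + (s + s + (s + s)) := by omega
    have h4 : 4 ∣ 2 + (s + s + (s + s)) + 2 := ⟨s + 1, by ring⟩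
    rw [kc, kc, fc, fc, gc, gc, if_pos h1, if_neg h2, if_neg h3, if_pos h4]
    ring
  · obtain ⟨s, rfl⟩ := hr
    have h1 : ¬ 4 ∣ 2 * s + 1 + (2 * s + 1) := by omega
    have h2 : 4 ∣ 2 * s + 1 + (2 * s + 1) + 2 := ⟨s + 1, by ring⟩
    have h3 : 4 ∣ 2 + (2 * s + 1 + (2 * s + 1)) := ⟨s + 1, by ring⟩
    have h4 : ¬ 4 ∣ 2 + (2 * s + 1 + (2 * s + 1)) + 2 := by omega
    rw [kc, kc, fc, fc, gc, gc, if_neg h1, if_pos h2, if_pos h3, if_neg h4]
    ring

omit [CharZero K] in
theorem kc_even {m : ℕ} (hm : Even m) : kc K m = 1 ∨ kc K m = -1 := by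
  obtain ⟨r, rfl⟩ := hm
  rw [kc, fc, gc]
  by_cases h1 : 4 ∣ r + r
  · have h2 : ¬ 4 ∣ r + r + 2 := by omega
    rw [if_pos h1, if_neg h2, sub_zero]
    exact Or.inl rfl
  · have h2 : 4 ∣ r + r + 2 := by omega
    rw [if_neg h1, if_pos h2, zero_sub]
    exact Or.inr rfl

omit [CharZero K] in
theorem kc_odd {m : ℕ} (hm : Odd m) : kc K m = 0 := by
  obtain ⟨r, rfl⟩ := hm
  have h1 : ¬ 4 ∣ 2 * r + 1 := by omega
  have h2 : ¬ 4 ∣ 2 * r + 1 + 2 := by omega
  rw [kc, fc, gc, if_neg h1, if_neg h2, sub_zero]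

/-- The projector onto the degrees divisible by `4` is algebraic. -/
def FourK (X : 𝒱) : Prop := scal W X (fc K) ∈ W.Cor X X 0

/-- The alternating sum of the even projectors is algebraic. -/
def KapK (X : 𝒱) : Prop := scal W X (kc K) ∈ W.Cor X X 0

variable {W}

theorem KapK.even {X : 𝒱} (h : KapK W X) : W.even X ∈ W.Cor X X 0 := by
  have h1 := W.cor_comp h h
  have h2 : scal W X (kc K) ∘ₗ scal W X (kc K) = W.even X := by
    refine W.hom_ext fun i x hx => ?_
    rw [LinearMap.comp_apply, scal_gr W _ hx, map_smul, scal_gr W _ hx, smul_smul]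
    rcases Nat.even_or_odd i with hi | hi
    · rw [W.even_even hx hi]
      rcases kc_even (K := K) hi with h | h
      · rw [h, one_mul, one_smul]
      · rw [h, neg_one_mul, neg_neg, one_smul]
    · rw [W.even_odd hx hi, kc_odd hi, zero_mul, zero_smul]
  rw [h2] at h1
  simpa only [add_zero] using h1

/-- All sums of projectors are algebraic if the conjecture of Künneth type holds. -/
theorem fourK_of_kunneth {X : 𝒱} (h : W.Kunneth X) : FourK W X := by
  rw [FourK, scal]
  refine AddSubgroup.sum_mem _ fun i _ => ?_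
  rw [fc]
  split_ifs
  · rw [one_smul]
    exact W.kunneth_iff.1 h i
  · rw [zero_smul]
    exact AddSubgroup.zero_mem _

/-- In odd dimension the transpose of the projector onto the degrees `0` modulo `4` is the projector
onto the degrees `2` modulo `4`. -/
theorem kapK_of_four {X : 𝒱} (hX : Odd (W.dim X)) (h : FourK W X) : KapK W X := by
  obtain ⟨f, hf, hft⟩ := tTrp K 𝒱 W X X 0 0 rfl _ h
  obtain ⟨d, hd⟩ := hX
  have h1 : f = scal W X (gc K) := by
    refine W.hom_ext fun l x hx => ?_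
    rw [← sub_eq_zero]
    refine W.duality _ fun y => ?_
    rw [sub_mul, map_sub, hft, sub_eq_zero]
    have h2 : (W.tr X ∘ₗ LinearMap.mulLeft K x ∘ₗ scal W X (fc K)) =
        W.tr X ∘ₗ LinearMap.mulLeft K (scal W X (gc K) x) := by
      refine W.hom_ext fun m y hy => ?_
      change W.tr X (x * scal W X (fc K) y) = W.tr X (scal W X (gc K) x * y)
      rw [scal_gr W _ hx, scal_gr W _ hy, mul_smul_comm, smul_mul_assoc, map_smul, map_smul]
      by_cases hm : l + m = 2 * W.dim X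
      · congr 1
        rw [fc, gc]
        by_cases h4 : 4 ∣ m
        · have h5 : 4 ∣ l + 2 := by omega
          rw [if_pos h4, if_pos h5]
        · have h5 : ¬ 4 ∣ l + 2 := by omega
          rw [if_neg h4, if_neg h5]
      · rw [W.tr_gr (SetLike.mul_mem_graded hx hy) (by omega), smul_zero, smul_zero]
    exact LinearMap.congr_fun h2 y
  have h3 : scal W X (kc K) = scal W X (fc K) - f := by
    rw [h1]
    refine W.hom_ext fun l x hx => ?_
    rw [LinearMap.sub_apply, scal_gr W _ hx, scal_gr W _ hx, scal_gr W _ hx, kc, sub_smul]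
  rw [KapK, h3]
  exact AddSubgroup.sub_mem _ h hf

/-- The operator for a retract. -/
theorem kap_retract {U Z : 𝒱} (s : Z ⟶ U) (p : U ⟶ Z) (h : s ≫ p = 𝟙 Z) (hU : KapK W U) :
    KapK W Z := by
  have h1 := W.cor_comp (W.cor_pull s) (W.cor_comp hU (W.cor_pull p))
  have h2 : (W.pull s).toLinearMap ∘ₗ scal W U (kc K) ∘ₗ (W.pull p).toLinearMap =
      scal W Z (kc K) := by
    refine W.hom_ext fun l x hx => ?_
    change W.pull s (scal W U (kc K) (W.pull p x)) = scal W Z (kc K) x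
    rw [scal_gr W _ hx, scal_gr W _ (W.pull_gr p hx), map_smul, ← W.pull_comp, h, W.pull_id]
  rw [h2] at h1
  rw [KapK]
  simpa only [add_zero] using h1

theorem kap_left {X Y : 𝒱} (h : KapK W (X ⊗ Y)) : KapK W X := by
  obtain ⟨s⟩ := W.point Y
  exact kap_retract (lift (𝟙 X) (toUnit X ≫ s)) (fst X Y) (lift_fst _ _) h

theorem kap_right {X Y : 𝒱} (h : KapK W (X ⊗ Y)) : KapK W Y := by
  obtain ⟨s⟩ := W.point X
  exact kap_retract (lift (toUnit Y ≫ s) (𝟙 Y)) (snd X Y) (lift_snd _ _) h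

end Pool.Agent.Lib.MP_4ca46c_ag.M4
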