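import Mathlib
import Pool.Agent.Lib.MP_4ca46c_ag.M4.Net

/-!
# The relation of the net from the alternating sum of the even projectors
-/

set_option autoImplicit false

open CategoryTheory MonoidalCategory CartesianMonoidalCategory TensorProduct

namespace Pool.Agent.Lib.MP_4ca46c_ag.M4

open Pool.Agent.Lib.MP_4ca46c_ag.Geo Pool.Agent.Lib.MP_4ca46c_ag.Geo.WeilCohomology
open Pool.Agent.Lib.MP_4ca46c_ag.Two (NetRelAux.sq)
open Pool.Agent.Lib.MP_4ca46c_ag.T2 (RelE)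

variable {K : Type} [Field K] [CharZero K] {𝒱 𝒱' : Type 1} [Category.{0} 𝒱]
  [CartesianMonoidalCategory 𝒱] [Category.{0} 𝒱'] [CartesianMonoidalCategory 𝒱']
  {W : WeilCohomology K 𝒱} {W' : WeilCohomology K 𝒱'}

theorem NetM.gys_res {Y : 𝒱} {U : 𝒱'} {δ : W.H Y} (N : NetM W W' Y U δ) (z : W.H Y) :
    N.gys (N.res z) = δ * z := by
  refine W.ext_tr fun y => ?_
  rw [N.gys_spec, ← map_mul, N.tr_res, mul_assoc]

/-- the relation on `Y`, in one degree -/
theorem NetM.rel {Y : 𝒱} {U : 𝒱'} {δ : W.H Y} (N : NetM W W' Y U δ) (hK : KapK W' U) {m : ℕ}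
    (hm : Even m) : ∃ w ∈ W.Cor Y Y (-1), ∀ z ∈ W.gr Y m,
      (2 * kc K m) • (δ * (δ * z)) = δ * (δ * w (δ * z)) - δ * w (δ * (δ * z)) := by
  obtain ⟨w, hw, β, hβ, h⟩ := N.split _ hK
  refine ⟨w, hw, fun z hz => ?_⟩
  have E1 := h (N.res z)
  rw [scal_gr W' _ (N.res_gr m z hz), N.gys_res] at E1
  have hz2 : δ * z ∈ W.gr Y (2 + m) := SetLike.mul_mem_graded N.δ_gr hz
  have E2 := h (N.res (δ * z))
  rw [scal_gr W' _ (N.res_gr _ _ hz2), N.gys_res, kc_add_two hm, map_mul N.res δ z, hβ] at E2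
  have E3 : N.res ((2 * kc K m) • (δ * z)) = N.res (δ * w (δ * z) - w (δ * (δ * z))) := by
    have e := congrArg (fun t => N.res δ * t) E1
    simp only [mul_add, mul_smul_comm] at e
    have e2 : N.res (w (δ * (δ * z))) =
        -(kc K m • (N.res δ * N.res z)) - N.res δ * β (N.res z) := by
      rw [neg_smul] at E2
      rw [E2]
      abel
    rw [map_smul, map_mul N.res δ z, map_sub, map_mul N.res δ (w (δ * z)), e2, two_mul, add_smul]
    nth_rewrite 1 [e]
    abel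
  have E4 := congrArg N.gys E3
  rw [N.gys_res, N.gys_res, mul_sub, mul_smul_comm] at E4
  exact E4

/-- **The relation in even degrees.** -/
theorem relE_of_kap {X : 𝒱} {U : 𝒱'} {η : W.H X} (hη : η ∈ W.Alg X 1) (h0 : η * η = 0)
    (hN : Nonempty (NetM W W' (X ⊗ X) U (W.tm η 1 + W.tm 1 η))) (hK : KapK W' U) :
    RelE W X η := by
  obtain ⟨N⟩ := hN
  have hg : η ∈ W.gr X 2 := W.alg_gr (c := 1) hη
  intro m hm
  obtain ⟨w, hw, h⟩ := N.rel hK hm
  obtain ⟨q, hq⟩ : ∃ q : ℚ, (q : K) * (2 * kc K m) = 1 := by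
    rcases kc_even (K := K) hm with h | h
    · exact ⟨1 / 2, by rw [h]; norm_num⟩
    · exact ⟨-1 / 2, by rw [h]; norm_num⟩
  refine ⟨(q : K) • w, W.cor_rat hw q, fun z hz => ?_⟩
  have h1 := h z hz
  have h2 := NetRelAux.sq (W := W) hg h0
  have e1 : ∀ t, (W.tm η 1 + W.tm 1 η) * ((W.tm η 1 + W.tm 1 η) * t) =
      (2 : K) • (W.tm η η * t) := fun t => by
    rw [← mul_assoc, h2, smul_mul_assoc]
  rw [e1, e1, map_smul, mul_smul_comm, ← smul_sub, smul_comm] at h1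
  have h3 := congrArg (fun t => (2 : K)⁻¹ • t) h1
  simp only [smul_smul, inv_mul_cancel₀ (two_ne_zero (α := K))] at h3
  rw [inv_mul_cancel_left₀ (two_ne_zero (α := K)), one_smul] at h3
  have h4 := congrArg (fun t => (q : K) • t) h3
  simp only [smul_smul, hq] at h4
  rw [one_smul] at h4
  rw [LinearMap.smul_apply, LinearMap.smul_apply, mul_smul_comm, mul_smul_comm, ← smul_sub]
  exact h4

end Pool.Agent.Lib.MP_4ca46c_ag.M4
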