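import Mathlib
import Pool.Agent.Lib.MP_4ca46c_ag.Std.Statement

/-!
# The sum of the Künneth components in the degrees divisible by four
-/

set_option autoImplicit false

namespace Pool.Agent.Lib.MP_4ca46c_ag.M4

open Pool.Agent.Lib.MP_4ca46c_ag.Sign Pool.Agent.Lib.MP_4ca46c_ag.Std

/-- The sum of the Künneth components `π_i` of the diagonal, `4 ∣ i`, is algebraic. That is, there is
a cycle `a` of codimension `n = dim V` on `V × V` which acts on `H(V)` as the projector onto the sum
of the `H^i(V)` with `4 ∣ i`: `p₁_* (cl a ∪ p₂^* v)` is `v` for `v ∈ H^l(V)` if `4 ∣ l`, and `0` for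
`v ∈ H^l(V)` otherwise. The equation is expressed by Poincaré duality. -/
def FourPart {k₀ : Type} [Field k₀] {K : Type} [Field K] (D : CohData k₀ K) (V : PrVar k₀) :
    Prop := ∃ a, D.Codim V.n a ∧
  ∀ l v w, D.Deg l v → V.pair D a v w = if 4 ∣ l then D.trace (D.cup v w) else 0

end Pool.Agent.Lib.MP_4ca46c_ag.M4
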