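import Mathlib
import Pool.Agent.Lib.MP_4ca46c_ag.Od.Fin
import Pool.Agent.Lib.MP_4ca46c_ag.M4.Fib
import Pool.Agent.Lib.MP_4ca46c_ag.M4.St

/-!
# Two parameters, one class: the final form
-/

set_option autoImplicit false

namespace Pool.Agent.Lib.MP_4ca46c_ag.M4

open CategoryTheory Limits AlgebraicGeometry MonoidalCategory CartesianMonoidalCategory
open Pool.Agent.Lib.MP_4ca46c_ag.Sign Pool.Agent.Lib.MP_4ca46c_ag.Hyp
open Pool.Agent.Lib.MP_4ca46c_ag.Std Pool.Agent.Lib.MP_4ca46c_ag.Vtc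
open Pool.Agent.Lib.MP_4ca46c_ag.T2 (pvar StPencilAsm WeakT)
open Pool.Agent.Lib.MP_4ca46c_ag.Od (WeakLefschetz TwoParams)
open Pool.Agent.Lib.MP_4ca46c_ag.Two.KunUAux (M)

variable {k₀ K : Type} [Field k₀] [Field K] {D : CohData k₀ K} (h : D.IsTheory)
  (h' : IsStandard D)

include h h' in
theorem four_iff [CharZero K] (V : PrVar k₀) :
    FourPart D V ↔ FourK (weil (D.weil h) V.k) (vr V) := by
  obtain ⟨π, hπ, he, ho⟩ : ∃ π : D.H V.X →ₗ[K] D.H V.X,
      π = scal (weil (D.weil h) V.k) (vr V) (fc K) ∧ (∀ l v, D.Deg l v → 4 ∣ l → π v = v) ∧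
        ∀ l v, D.Deg l v → ¬ 4 ∣ l → π v = 0 := by
    refine ⟨scal (weil (D.weil h) V.k) (vr V) (fc K), rfl, fun l v hv hl => ?_,
      fun l v hv hl => ?_⟩
    · refine (scal_gr (weil (D.weil h) V.k) (X := vr V) (fc K) hv).trans ?_
      rw [fc, if_pos hl, one_smul]
    · refine (scal_gr (weil (D.weil h) V.k) (X := vr V) (fc K) hv).trans ?_
      rw [fc, if_neg hl, zero_smul]
      rfl
  refine Iff.trans ?_ ((alg_iff h h' V (r := 0) (φ := π)).trans (by rw [hπ]; rfl))
  constructor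
  · rintro ⟨a, ha, hp⟩
    refine ⟨a, Or.inl ⟨by omega, ?_⟩, fun v w => ?_⟩
    · simpa using ha
    · let f : D.H V.X →ₗ[K] K := D.tr V.X ∘ₗ LinearMap.mulRight K w ∘ₗ π
      let g : D.H V.X →ₗ[K] K := D.tr V.sq ∘ₗ LinearMap.mulRight K (D.pullH V.p₁ w) ∘ₗ
        LinearMap.mulLeft K (D.cls a) ∘ₗ (D.pullH V.p₂).toLinearMap
      have h1 : ∀ (l : ℕ) (v : D.H V.X), D.Deg l v → f v = g v := by
        intro l v hv
        have h2 : g v = if 4 ∣ l then D.trace (D.cup v w) else 0 := hp l v w hv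
        rw [h2]
        change D.tr V.X (π v * w) = _
        by_cases hl : 4 ∣ l
        · rw [if_pos hl, he l v hv hl]
          rfl
        · rw [if_neg hl, ho l v hv hl, zero_mul, map_zero]
      have h3 : f = g := (weil (D.weil h) V.k).hom_ext (X := vr V) h1
      exact LinearMap.congr_fun h3 v
  · rintro ⟨a, ha, hp⟩
    refine ⟨a, ?_, fun l v w hv => ?_⟩
    · rcases ha with ⟨-, ha⟩ | ⟨h0, -⟩
      · simpa using ha
      · omega
    · rw [← hp v w]
      by_cases hl : 4 ∣ l
      · rw [if_pos hl, he l v hv hl]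
      · rw [if_neg hl, ho l v hv hl, CohData.trace, CohData.cup, zero_mul, map_zero]

include h h' in
theorem four_of_kunneth [CharZero K] (V : PrVar k₀) (H : V.KunnethConj D) : FourPart D V :=
  (four_iff h h' V).2 (fourK_of_kunneth ((kun_iff h h' V).1 H))

include h h' in
theorem kap_of_four [CharZero K] (V : PrVar k₀) (hV : Odd V.n) (H : FourPart D V) :
    KapK (weil (D.weil h) V.k) (vr V) :=
  kapK_of_four hV ((four_iff h h' V).1 H)

/-- The local form for projective varieties over `k`. -/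
theorem proj4 [CharZero K] (h' : IsStandard D) (hP : StPencilAsm k₀ K) (hF : StFibK k₀ K)
    (hT : WeakT (D.weil h)) (k : Type) [Field k] [Algebra k₀ k] [IsAlgClosed k] :
    ∀ (n : ℕ) (V : ProjVar k₀ k), V.n = n → ∃ U : ℕ → ProjVar k₀ (M k),
      (∀ i, i + 2 ≤ n → (U i).n = 2 * i + 3) ∧
      ((∀ i, i + 2 ≤ n → KapK (weil (D.weil h) (M k)) (pvar (U i))) →
        (weil (D.weil h) k).Lefschetz (pvar V) (D.cls (V.h (D.weil h)))) := by
  have E := bridge_extra h h'
  intro n
  induction n with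
  | zero =>
    intro V hV
    refine ⟨fun _ => Two.P2 k₀ (M k), fun i hi => by omega, fun _ => ?_⟩
    exact Two.tLow K (Var k₀ k) (weil (D.weil h) k) (pvar V) _ (h_alg h (ofProj V))
      (hard h h' (ofProj V)) (by
        change V.n ≤ 1
        omega)
  | succ m ih =>
    intro V hV
    rcases Nat.eq_zero_or_pos m with rfl | hm
    · refine ⟨fun _ => Two.P2 k₀ (M k), fun i hi => by omega, fun _ => ?_⟩
      exact Two.tLow K (Var k₀ k) (weil (D.weil h) k) (pvar V) _ (h_alg h (ofProj V))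
        (hard h h' (ofProj V)) (by
          change V.n ≤ 1
          omega)
    · obtain ⟨Φ, Y, P, hη, hΦ, hΦn, hY, hh⟩ := hP (D.weil h) E hT k V m hm hV
      obtain ⟨V', hV', hQ⟩ := hF (D.weil h) E k Φ
      obtain ⟨U, hU, hUL⟩ := ih Y hY
      refine ⟨Function.update U (m - 1) V', fun i hi => ?_, fun H => ?_⟩
      · by_cases h1 : i = m - 1
        · subst h1
          rw [Function.update_self, hV', hΦ, hΦn]
          omega
        · rw [Function.update_of_ne h1]
          exact hU i (by omega)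
      · have h1 : KapK (weil (D.weil h) (M k)) (pvar V') := by
          have := H (m - 1) (by omega)
          rwa [Function.update_self] at this
        have h2 : (weil (D.weil h) k).Lefschetz (pvar Y) (D.cls (Y.h (D.weil h))) := by
          refine hUL fun i hi => ?_
          have := H i (by omega)
          rwa [Function.update_of_ne (by omega)] at this
        refine T2.fLefUp K (Var k₀ k) (weil (D.weil h) k) (pvar V) (pvar Y) Φ.VV _ P ?_ ?_
        · rw [hη]
          exact hQ h1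
        · have e : (weil (D.weil h) k).Lefschetz (pvar Y)
              ((weil (D.weil h) k).pull P.i ((D.weil h).cl V.X (V.h (D.weil h)))) := by
            rw [hh]
            exact h2
          exact e

include h h' in
/-- **The local form.** -/
theorem loc4 (hW : WeakLefschetz D) (V : PrVar k₀) : ∃ U : Fin (V.n - 1) → PrVar k₀,
    (∀ j, TwoParams V (U j) ∧ (U j).n = 2 * j + 3) ∧
      ((∀ j, FourPart D (U j)) → V.LefschetzConj D) := by
  have := char_zero h h'
  obtain ⟨U, h1, h2⟩ := proj4 h h' (T2.fin_pencil k₀ K Cn.tHypConn)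
    (fFibK k₀ K Two.tPsi (Two.tNetSm k₀ (Two.tNetVar k₀))) (Od.weakT h hW) V.k V.n V.toProj rfl
  refine ⟨fun j => ofProj (U j), fun j => ⟨Od.twoParams V (U j), h1 j (by omega)⟩, fun H => ?_⟩
  rw [lef_iff h h']
  exact h2 fun i hi => kap_of_four h h' (ofProj (U i)) ⟨i + 1, by
    change (U i).n = _
    rw [h1 i hi]
    ring⟩ (H ⟨i, by omega⟩)

/-- The projective line. -/
noncomputable def line (k : Type) [Field k] [Algebra k₀ k] : ProjVar k₀ k where
  X := PSo k₀ k (Fin 2)
  str := PSo.str k₀ k (Fin 2)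
  n := 1
  isVar := pso_var k₀ k (Fin 2) 1 (by simp)
  κ := Fin 2
  i := 0
  emb := 𝟙 _
  closed := by
    rw [Over.id_left]
    infer_instance
  emb_str := Category.id_comp _

/-- The product of a family. -/
theorem exists_prod [CharZero K] (k : Type) [Field k] [Algebra k₀ k] [IsAlgClosed k]
    (U : ℕ → ProjVar k₀ k) (B : ProjVar k₀ k) (m : ℕ) : ∃ P : ProjVar k₀ k,
      P.n = B.n + ∑ i ∈ Finset.range m, (U i).n ∧
      (KapK (weil (D.weil h) k) (pvar P) → ∀ i < m, KapK (weil (D.weil h) k) (pvar (U i))) := by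
  induction m with
  | zero => exact ⟨B, by simp, fun _ i hi => by omega⟩
  | succ m ih =>
    obtain ⟨P, hP, H⟩ := ih
    refine ⟨P.prod (U m) tSegreGeo, ?_, fun hK i hi => ?_⟩
    · change P.n + (U m).n = _
      rw [hP, Finset.sum_range_succ]
      ring
    · have hK' : KapK (weil (D.weil h) k) (pvar P ⊗ pvar (U m)) := hK
      rcases Nat.lt_or_ge i m with h1 | h1
      · exact H (kap_left hK') i h1
      · obtain rfl : i = m := by omega
        exact kap_right hK'

include h h' in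
/-- **One variety, one class.** -/
theorem one4 (hW : WeakLefschetz D) (V : PrVar k₀) : ∃ U : PrVar k₀, TwoParams V U ∧
    Odd U.n ∧ U.n ≤ V.n ^ 2 + 1 ∧ (FourPart D U → V.LefschetzConj D) := by
  have := char_zero h h'
  obtain ⟨U, h1, h2⟩ := proj4 h h' (T2.fin_pencil k₀ K Cn.tHypConn)
    (fFibK k₀ K Two.tPsi (Two.tNetSm k₀ (Two.tNetVar k₀))) (Od.weakT h hW) V.k V.n V.toProj rfl
  have hs : ∑ i ∈ Finset.range (V.n - 1), (U i).n + 1 ≤ V.n ^ 2 + 1 ∧
      (Odd (∑ i ∈ Finset.range (V.n - 1), (U i).n) →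
        ∑ i ∈ Finset.range (V.n - 1), (U i).n + 2 ≤ V.n ^ 2 + 1) := by
    have e : ∀ m, m ≤ V.n - 1 → ∑ i ∈ Finset.range m, (U i).n = m ^ 2 + 2 * m := by
      intro m
      induction m with
      | zero => simp
      | succ m ih =>
        intro hm
        rw [Finset.sum_range_succ, ih (by omega), h1 m (by omega)]
        ring
    rw [e _ le_rfl]
    rcases Nat.eq_zero_or_pos V.n with h0 | h0
    · rw [h0]
      simp
    · obtain ⟨r, hr⟩ : ∃ r, V.n = r + 1 := ⟨V.n - 1, by omega⟩
      rw [hr, Nat.add_sub_cancel]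
      constructor
      · nlinarith
      · intro _
        nlinarith
  obtain ⟨B, hB⟩ : ∃ B : ProjVar k₀ (M V.k),
      Odd (B.n + ∑ i ∈ Finset.range (V.n - 1), (U i).n) ∧
        B.n + ∑ i ∈ Finset.range (V.n - 1), (U i).n ≤ V.n ^ 2 + 1 := by
    rcases Nat.even_or_odd (∑ i ∈ Finset.range (V.n - 1), (U i).n) with h3 | h3
    · refine ⟨line (M V.k), ?_, ?_⟩
      · change Odd (1 + _)
        exact odd_one.add_even h3
      · change 1 + _ ≤ _
        have := hs.1
        omega
    · refine ⟨Two.P2 k₀ (M V.k), ?_, ?_⟩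
      · change Odd (2 + _)
        exact even_two.add_odd h3
      · change 2 + _ ≤ _
        have := hs.2 h3
        omega
  obtain ⟨P, hP, H⟩ := exists_prod (D := D) h (M V.k) U B (V.n - 1)
  have hPn : (ofProj P).n = B.n + ∑ i ∈ Finset.range (V.n - 1), (U i).n := hP
  refine ⟨ofProj P, Od.twoParams V P, by rw [hPn]; exact hB.1, by rw [hPn]; exact hB.2,
    fun hF => ?_⟩
  rw [lef_iff h h']
  exact h2 fun i hi => H (kap_of_four h h' (ofProj P) (by rw [hPn]; exact hB.1) hF) i (by omega)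

include h h' in
/-- **Finite transcendence degree.** -/
theorem fin4 (hW : WeakLefschetz D) (V : PrVar k₀) (r m : ℕ) (hV : Algebra.trdeg k₀ V.k = r)
    (hr : r + 2 ≤ m) (H : ∀ U : PrVar k₀, Odd U.n → U.n < 2 * V.n → Algebra.trdeg k₀ U.k = m →
      FourPart D U) : V.LefschetzConj D := by
  have := char_zero h h'
  obtain ⟨V', h1, h3, -, h2⟩ := Two.exists_pbc h h' V (m - 2 - r)
  refine h2 ?_
  obtain ⟨U, hU, hUL⟩ := loc4 h h' hW V'
  refine hUL fun j => H _ ⟨j + 1, by rw [(hU j).2]; ring⟩ (by rw [(hU j).2]; omega) ?_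
  rw [(hU j).1.trdeg, h1, hV]
  norm_cast
  omega

include h h' in
/-- **The equivalence.** -/
theorem equiv4 [IsAlgClosed k₀] (hW : WeakLefschetz D) (hF : HasFamilies D) (hM : HasModels k₀)
    (m : ℕ) (hm : 2 ≤ m) :
    [∀ V : PrVar k₀, V.KunnethConj D, ∀ V : PrVar k₀, V.LefschetzConj D,
      ∀ V : PrVar k₀, V.IsOver k₀ → V.LefschetzConj D,
      ∀ V : PrVar k₀, Odd V.n → Algebra.trdeg k₀ V.k = m → FourPart D V].TFAE := by
  have := char_zero h h'
  have h1 := final_tfae h h' hF hM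
  tfae_have 1 ↔ 2 := h1.out 0 1
  tfae_have 2 ↔ 3 := h1.out 1 2
  tfae_have 1 → 4 := fun H V _ _ => four_of_kunneth h h' V (H V)
  tfae_have 4 → 3 := fun H V hV => fin4 h h' hW V 0 m (by
    rw [Nat.cast_zero]
    exact Vtc.IsOver.trdeg hV) (by omega) fun U hU _ => H U hU
  tfae_finish

end Pool.Agent.Lib.MP_4ca46c_ag.M4
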